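import Pool.Agent.H51.ERA.Stmts
import Pool.Agent.H51.ERA.Base

/-!
MP_e0047e_lc, module SND: all words of the erasing grammar are good.
-/

set_option autoImplicit false

namespace Pool.Agent.H40.ERA

open Pool.Agent.H51.ERA

/-- Symbols of the erasing grammar. -/
abbrev Sy := Symbol Ltr NT

/-- The types of a stack, bottom first. -/
def tys (σ : List Ent) : List (Fin 4) := (σ.map Prod.fst).reverse

theorem tys_nil : tys [] = [] := rfl

theorem tys_cons (a : Ent) (σ : List Ent) : tys (a :: σ) = tys σ ++ [a.1] := by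
  simp [tys]

/-- Action of one symbol on the stack. -/
def act (V V' : List (Fin 4)) (x : Sy) (st st' : List Ent) : Prop :=
  match x with
  | Symbol.nonterminal NT.X => (tys st).Sublist V ∧ st' = st
  | Symbol.nonterminal NT.X' => (tys st).Sublist V' ∧ st' = st
  | Symbol.nonterminal NT.P => st = [] ∧ st' = st
  | Symbol.nonterminal NT.S => st' = st
  | Symbol.nonterminal NT.Z => st' = st
  | Symbol.nonterminal NT.c => st' = st
  | Symbol.nonterminal NT.c' => st' = st
  | Symbol.terminal (Ltr.op a) => st' = a :: st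
  | Symbol.terminal (Ltr.cl a) => st = a :: st'
  | Symbol.terminal Ltr.dd => (tys st).Sublist V' ∧ st' = st
  | Symbol.terminal Ltr.ee => (tys st).Sublist V' ∧ st' = st
  | Symbol.terminal (Ltr.vl _) => st' = st

/-- The form can be read from the stack `st`. -/
def chk (V V' : List (Fin 4)) : List Sy → List Ent → Prop
  | [], st => st = []
  | x :: u, st => ∃ st', act V V' x st st' ∧ chk V V' u st'

theorem act_mono {V V' W W' : List (Fin 4)} (h : V.Sublist W) (h' : V'.Sublist W') {x : Sy}
    {st st' : List Ent} (ha : act V V' x st st') : act W W' x st st' := by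
  cases x with
  | nonterminal n =>
    cases n with
    | X => exact ⟨ha.1.trans h, ha.2⟩
    | X' => exact ⟨ha.1.trans h', ha.2⟩
    | _ => exact ha
  | terminal t =>
    cases t with
    | dd => exact ⟨ha.1.trans h', ha.2⟩
    | ee => exact ⟨ha.1.trans h', ha.2⟩
    | _ => exact ha

theorem chk_mono {V V' W W' : List (Fin 4)} (h : V.Sublist W) (h' : V'.Sublist W') (u : List Sy) :
    ∀ st, chk V V' u st → chk W W' u st := by
  induction u with
  | nil => intro st hs; exact hs
  | cons x u ih =>
    intro st hs
    obtain ⟨st', h1, h2⟩ := hs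
    exact ⟨st', act_mono h h' h1, ih st' h2⟩

theorem chk_rw {V V' : List (Fin 4)} {A : Sy} {out q : List Sy}
    (h : ∀ st, chk V V' (A :: q) st → chk V V' (out ++ q) st) (p : List Sy) :
    ∀ st, chk V V' (p ++ A :: q) st → chk V V' (p ++ (out ++ q)) st := by
  induction p with
  | nil => exact h
  | cons x p ih =>
    intro st hs
    obtain ⟨st', h1, h2⟩ := hs
    exact ⟨st', h1, ih st' h2⟩

/-- Weights. -/
def wt (k : ℕ) (x : Sy) : ℕ :=
  match x with
  | Symbol.nonterminal NT.c => k
  | Symbol.nonterminal NT.c' => 1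
  | Symbol.terminal Ltr.dd => 1
  | _ => 0

/-- Weighted number of symbols. -/
def cw (k : ℕ) (u : List Sy) : ℕ := (u.map (wt k)).sum

theorem cw_append (k : ℕ) (u v : List Sy) : cw k (u ++ v) = cw k u + cw k v := by
  simp [cw]

theorem cw_cons (k : ℕ) (x : Sy) (u : List Sy) : cw k (x :: u) = wt k x + cw k u := by
  simp [cw]

theorem cw_nil (k : ℕ) : cw k [] = 0 := rfl

theorem cw_12 (u : List Sy) : cw 1 u ≤ cw 2 u := by
  induction u with
  | nil => simp [cw_nil]
  | cons x u ih =>
    rw [cw_cons, cw_cons]
    have : wt 1 x ≤ wt 2 x := by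
      cases x with
      | nonterminal n => cases n <;> simp [wt]
      | terminal t => cases t <;> simp [wt]
    omega

theorem cw_21 (u : List Sy) : cw 2 u ≤ 2 * cw 1 u := by
  induction u with
  | nil => simp [cw_nil]
  | cons x u ih =>
    rw [cw_cons, cw_cons]
    have : wt 2 x ≤ 2 * wt 1 x := by
      cases x with
      | nonterminal n => cases n <;> simp [wt]
      | terminal t => cases t <;> simp [wt]
    omega

/-- Clean symbols. -/
def cln (x : Sy) : Prop :=
  match x with
  | Symbol.nonterminal NT.P => False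
  | Symbol.nonterminal NT.S => False
  | Symbol.terminal (Ltr.vl _) => False
  | _ => True

/-- The v-letters as symbols. -/
def vf (v : List (Fin 4)) : List Sy := v.map fun τ => Symbol.terminal (Ltr.vl τ)

/-- Shape of the sentential forms. -/
def Shape (v : List (Fin 4)) (u : List Sy) : Prop :=
  ∃ pre body : List Sy, (pre = [] ∨ pre = [Symbol.nonterminal NT.P]) ∧
    u = vf v ++ (pre ++ body) ∧ ∀ x ∈ body, cln x

theorem split_mem {α : Type} {A : α} {q : List α} (L₁ : List α) : ∀ (L₂ p : List α), A ∉ L₁ →
    L₁ ++ L₂ = p ++ A :: q → ∃ p', p = L₁ ++ p' ∧ L₂ = p' ++ A :: q := by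
  induction L₁ with
  | nil => intro L₂ p _ h; exact ⟨p, rfl, h⟩
  | cons x L₁ ih =>
    intro L₂ p hA h
    cases p with
    | nil =>
      simp only [List.cons_append, List.nil_append, List.cons.injEq] at h
      exact absurd (h.1 ▸ List.mem_cons_self) hA
    | cons y p =>
      simp only [List.cons_append, List.cons.injEq] at h
      obtain ⟨p', h1, h2⟩ := ih L₂ p (fun hm => hA (List.mem_cons_of_mem _ hm)) h.2
      exact ⟨p', by rw [h1, h.1]; rfl, h2⟩

theorem mem_vf {v : List (Fin 4)} {x : Sy} (h : x ∈ vf v) :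
    ∃ τ : Fin 4, x = Symbol.terminal (Ltr.vl τ) := by
  obtain ⟨τ, _, h2⟩ := List.mem_map.1 h
  exact ⟨τ, h2.symm⟩

theorem shape_cln {v : List (Fin 4)} {A : Sy} {p q out : List Sy} (hA : cln A)
    (ho : ∀ x ∈ out, cln x) (h : Shape v (p ++ A :: q)) : Shape v (p ++ (out ++ q)) := by
  obtain ⟨pre, body, hp, hu, hb⟩ := h
  have hA1 : A ∉ vf v := by
    intro hm
    obtain ⟨τ, h1⟩ := mem_vf hm
    rw [h1] at hA
    exact hA
  have hA2 : A ∉ pre := by
    intro hm
    rcases hp with h1 | h1
    · rw [h1] at hm; simp at hm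
    · rw [h1] at hm
      simp only [List.mem_cons, List.not_mem_nil, or_false] at hm
      rw [hm] at hA
      exact hA
  obtain ⟨p₁, e1, e2⟩ := split_mem _ _ _ hA1 hu.symm
  obtain ⟨p₂, e3, e4⟩ := split_mem _ _ _ hA2 e2
  refine ⟨pre, p₂ ++ (out ++ q), hp, ?_, ?_⟩
  · rw [e1, e3]; simp
  · intro x hx
    rw [e4] at hb
    simp only [List.mem_append] at hx
    rcases hx with hx | hx | hx
    · exact hb x (by simp [hx])
    · exact ho x hx
    · exact hb x (by simp [hx])

theorem shape_P {v : List (Fin 4)} {p q : List Sy}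
    (h : Shape v (p ++ Symbol.nonterminal NT.P :: q)) : p = vf v ∧ ∀ x ∈ q, cln x := by
  obtain ⟨pre, body, hp, hu, hb⟩ := h
  have hA1 : (Symbol.nonterminal NT.P : Sy) ∉ vf v := by
    intro hm
    obtain ⟨τ, h1⟩ := mem_vf hm
    cases h1
  obtain ⟨p₁, e1, e2⟩ := split_mem _ _ _ hA1 hu.symm
  rcases hp with h1 | h1
  · exfalso
    rw [h1] at e2
    simp only [List.nil_append] at e2
    have : (Symbol.nonterminal NT.P : Sy) ∈ body := by rw [e2]; simp
    exact hb _ this
  · rw [h1] at e2
    cases p₁ with
    | nil =>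
      simp only [List.cons_append, List.nil_append, List.cons.injEq, true_and] at e2
      refine ⟨by rw [e1]; simp, ?_⟩
      rw [← e2]; exact hb
    | cons y p₁ =>
      exfalso
      simp only [List.cons_append, List.nil_append, List.cons.injEq] at e2
      have : (Symbol.nonterminal NT.P : Sy) ∈ body := by rw [e2.2]; simp
      exact hb _ this

/-- The invariant. -/
def Inv (q : St) (u : List Sy) : Prop :=
  match q with
  | St.qS => u = [Symbol.nonterminal NT.S]
  | St.qR => ∃ v, Shape v u ∧ chk v v u [] ∧ cw 1 u ≤ F v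
  | St.qF => ∃ v, Shape v u ∧ chk v v u [] ∧ cw 1 u ≤ F v
  | St.qO => ∃ v, Shape v u ∧ chk v v u [] ∧ cw 1 u ≤ F v + 1
  | St.qN => ∃ v, Shape (v ++ [1]) u ∧ chk v (v ++ [1]) u [] ∧ cw 2 u + 1 ≤ F (v ++ [1])
  | St.qM τ => ∃ v, Shape (v ++ [τ]) u ∧ chk v (v ++ [τ]) u [] ∧
      cw (if τ < 2 then 2 else 1) u ≤ F (v ++ [τ])
  | St.qD => True

theorem F_append (v : List (Fin 4)) (τ : Fin 4) :
    F (v ++ [τ]) = if τ = 0 then 2 * F v else if τ = 1 then 2 * F v + 1 else F v := by
  simp [F, List.foldl_append]

/-- A rewriting step at a clean symbol. -/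
theorem step_cln {v V V' : List (Fin 4)} {A : Sy} {p q out : List Sy} (hA : cln A)
    (ho : ∀ x ∈ out, cln x) (h : Shape v (p ++ A :: q)) (hc : chk V V' (p ++ A :: q) [])
    (hr : ∀ st, chk V V' (A :: q) st → chk V V' (out ++ q) st) :
    Shape v (p ++ (out ++ q)) ∧ chk V V' (p ++ (out ++ q)) [] :=
  ⟨shape_cln hA ho h, chk_rw hr p [] hc⟩

theorem cw_mid (k : ℕ) (p q : List Sy) (A : Sy) : cw k (p ++ A :: q) = cw k p + wt k A + cw k q := by
  rw [cw_append, cw_cons]; omega

theorem cw_mid' (k : ℕ) (p out q : List Sy) :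
    cw k (p ++ (out ++ q)) = cw k p + cw k out + cw k q := by
  rw [cw_append, cw_append]; omega

theorem sub_one (v : List (Fin 4)) (τ : Fin 4) : v.Sublist (v ++ [τ]) :=
  List.sublist_append_left v [τ]

theorem sub_tys {V : List (Fin 4)} {st : List Ent} {a : Ent} {τ : Fin 4} (ha : a.1 = τ)
    (h : (tys st).Sublist V) : (tys (a :: st)).Sublist (V ++ [τ]) := by
  rw [tys_cons, ha]
  exact h.append (List.Sublist.refl _)

theorem inv_step {q : St} {r : Rl} {u u' : List Sy} (hi : Inv q u) (hr : (rul r).Rewrites u u') :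
    Inv (stepH q r) u' := by
  obtain ⟨p, s, e1, e2⟩ := ContextFreeRule.rewrites_iff.1 hr
  have e1' : u = p ++ Symbol.nonterminal (rul r).input :: s := by rw [e1]; simp
  have e2' : u' = p ++ ((rul r).output ++ s) := by rw [e2]; simp
  clear e1 e2 hr
  subst e1' e2'
  cases q with
  | qS =>
    cases r with
    | r0 =>
      have h1 : p ++ Symbol.nonterminal NT.S :: s = [Symbol.nonterminal NT.S] := hi
      cases p with
      | nil =>
        simp only [List.nil_append, List.cons.injEq, true_and] at h1
        subst h1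
        refine ⟨[], ⟨[Symbol.nonterminal NT.P], [Symbol.nonterminal NT.Z, Symbol.nonterminal NT.c],
          Or.inr rfl, rfl, ?_⟩, ⟨[], ⟨rfl, rfl⟩, [], rfl, [], rfl, rfl⟩, le_of_eq rfl⟩
        intro x hx
        simp only [List.mem_cons, List.not_mem_nil, or_false] at hx
        rcases hx with rfl | rfl <;> exact trivial
      | cons y p =>
        simp at h1
    | _ => exact trivial
  | qR =>
    cases r with
    | rX =>
      obtain ⟨v, hS, hC, hW⟩ := hi
      obtain ⟨hp, hs⟩ := shape_P hS
      refine ⟨v, ⟨[Symbol.nonterminal NT.P], Symbol.nonterminal NT.X :: s, Or.inr rfl, ?_, ?_⟩,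
        chk_rw ?_ p [] hC, ?_⟩
      · rw [hp]; rfl
      · intro x hx
        rcases List.mem_cons.1 hx with rfl | hx
        · exact trivial
        · exact hs x hx
      · rintro st ⟨st', ⟨h1, h2⟩, h3⟩
        subst h1; subst h2
        exact ⟨[], ⟨rfl, rfl⟩, [], ⟨List.nil_sublist _, rfl⟩, h3⟩
      · rw [cw_mid] at hW
        rw [cw_mid']
        exact hW
    | retX =>
      obtain ⟨v, hS, hC, hW⟩ := hi
      obtain ⟨h1, h2⟩ := step_cln (A := Symbol.nonterminal NT.X') (out := [Symbol.nonterminal NT.X])
        trivial (by simp [cln]) hS hC (fun st h => h)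
      refine ⟨v, h1, h2, ?_⟩
      rw [cw_mid] at hW
      rw [cw_mid']
      exact hW
    | retc =>
      obtain ⟨v, hS, hC, hW⟩ := hi
      obtain ⟨h1, h2⟩ := step_cln (A := Symbol.nonterminal NT.c') (out := [Symbol.nonterminal NT.c])
        trivial (by simp [cln]) hS hC (fun st h => h)
      refine ⟨v, h1, h2, ?_⟩
      rw [cw_mid] at hW
      rw [cw_mid']
      exact hW
    | rv τ =>
      obtain ⟨v, hS, hC, hW⟩ := hi
      obtain ⟨hp, hs⟩ := shape_P hS
      have h1 : Shape (v ++ [τ]) (p ++ ([Symbol.terminal (Ltr.vl τ), Symbol.nonterminal NT.P] ++ s)) := by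
        refine ⟨[Symbol.nonterminal NT.P], s, Or.inr rfl, ?_, hs⟩
        rw [hp]; simp [vf]
      have h2 : chk v (v ++ [τ]) (p ++ ([Symbol.terminal (Ltr.vl τ), Symbol.nonterminal NT.P] ++ s)) [] := by
        refine chk_rw ?_ p [] (chk_mono (List.Sublist.refl v) (sub_one v τ) _ _ hC)
        rintro st ⟨st', h3, h4⟩
        exact ⟨st, rfl, st', h3, h4⟩
      have h3 : ∀ k, cw k (p ++ ([Symbol.terminal (Ltr.vl τ), Symbol.nonterminal NT.P] ++ s)) =
          cw k (p ++ Symbol.nonterminal (rul (Rl.rv τ)).input :: s) := by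
        intro k
        rw [cw_mid, cw_mid']
        rfl
      have h4 := cw_21 (p ++ Symbol.nonterminal (rul (Rl.rv τ)).input :: s)
      have hF := F_append v τ
      show Inv (if τ = 1 then St.qN else St.qM τ) _
      by_cases hτ : τ = 1
      · rw [if_pos hτ]
        subst hτ
        refine ⟨v, h1, h2, ?_⟩
        have h5 := h3 2
        simp only [Fin.isValue, one_ne_zero, if_false, if_true] at hF
        show cw 2 (p ++ ([Symbol.terminal (Ltr.vl 1), Symbol.nonterminal NT.P] ++ s)) + 1 ≤ _
        omega
      · rw [if_neg hτ]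
        refine ⟨v, h1, h2, ?_⟩
        rw [if_neg hτ] at hF
        show cw (if τ < 2 then 2 else 1)
          (p ++ ([Symbol.terminal (Ltr.vl τ), Symbol.nonterminal NT.P] ++ s)) ≤ _
        rw [h3]
        by_cases h0 : τ = 0
        · subst h0
          simp only [if_true] at hF
          rw [if_pos (by decide)]
          omega
        · have h6 : ¬ τ < 2 := by
            have : ∀ x : Fin 4, ¬ x = 1 → ¬ x = 0 → ¬ x < 2 := by decide
            exact this τ hτ h0
          rw [if_neg h0] at hF
          rw [if_neg h6]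
          omega
    | fZ =>
      obtain ⟨v, hS, hC, hW⟩ := hi
      obtain ⟨h1, h2⟩ := step_cln (A := Symbol.nonterminal NT.Z) (out := [])
        trivial (by simp) hS hC (by
          rintro st ⟨st', h3, h4⟩
          have h3' : st' = st := h3
          subst h3'
          exact h4)
      refine ⟨v, h1, h2, ?_⟩
      rw [cw_mid] at hW
      rw [cw_mid']
      exact hW
    | _ => exact trivial
  | qN =>
    cases r with
    | inc =>
      obtain ⟨v, hS, hC, hW⟩ := hi
      obtain ⟨h1, h2⟩ := step_cln (A := Symbol.nonterminal NT.Z)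
        (out := [Symbol.nonterminal NT.Z, Symbol.nonterminal NT.c'])
        trivial (by simp [cln]) hS hC (by
          rintro st ⟨st', h3, h4⟩
          exact ⟨st', h3, st', rfl, h4⟩)
      refine ⟨v, h1, h2, ?_⟩
      rw [if_pos (by decide)]
      rw [cw_mid] at hW
      show cw 2 (p ++ ([Symbol.nonterminal NT.Z, Symbol.nonterminal NT.c'] ++ s)) ≤ _
      rw [cw_mid']
      have h3 : wt 2 (Symbol.nonterminal (rul Rl.inc).input) = 0 := rfl
      have h4 : cw 2 [Symbol.nonterminal NT.Z, Symbol.nonterminal NT.c'] = 1 := rfl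
      omega
    | _ => exact trivial
  | qM τ =>
    cases r with
    | mv a =>
      show Inv (if a.1 = τ then St.qM τ else St.qD) _
      by_cases ha : a.1 = τ
      · rw [if_pos ha]
        obtain ⟨v, hS, hC, hW⟩ := hi
        obtain ⟨h1, h2⟩ := step_cln (A := Symbol.nonterminal NT.X)
          (out := [Symbol.terminal (Ltr.op a), Symbol.nonterminal NT.X', Symbol.terminal (Ltr.cl a)])
          trivial (by simp [cln]) hS hC (by
            rintro st ⟨st', ⟨h3, h3'⟩, h4⟩
            subst h3'
            exact ⟨a :: st', rfl, a :: st', ⟨sub_tys ha h3, rfl⟩, st', rfl, h4⟩)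
        refine ⟨v, h1, h2, ?_⟩
        rw [cw_mid] at hW
        rw [cw_mid']
        exact hW
      · rw [if_neg ha]; exact trivial
    | br a =>
      show Inv (if a.1 = τ then St.qM τ else St.qD) _
      by_cases ha : a.1 = τ
      · rw [if_pos ha]
        obtain ⟨v, hS, hC, hW⟩ := hi
        obtain ⟨h1, h2⟩ := step_cln (A := Symbol.nonterminal NT.X)
          (out := [Symbol.terminal (Ltr.op a), Symbol.nonterminal NT.X', Symbol.nonterminal NT.X',
            Symbol.terminal (Ltr.cl a)])
          trivial (by simp [cln]) hS hC (by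
            rintro st ⟨st', ⟨h3, h3'⟩, h4⟩
            subst h3'
            exact ⟨a :: st', rfl, a :: st', ⟨sub_tys ha h3, rfl⟩, a :: st', ⟨sub_tys ha h3, rfl⟩,
              st', rfl, h4⟩)
        refine ⟨v, h1, h2, ?_⟩
        rw [cw_mid] at hW
        rw [cw_mid']
        exact hW
      · rw [if_neg ha]; exact trivial
    | dbl =>
      show Inv (if τ < 2 then St.qM τ else St.qD) _
      by_cases hτ : τ < 2
      · rw [if_pos hτ]
        obtain ⟨v, hS, hC, hW⟩ := hi
        obtain ⟨h1, h2⟩ := step_cln (A := Symbol.nonterminal NT.c)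
          (out := [Symbol.nonterminal NT.c', Symbol.nonterminal NT.c'])
          trivial (by simp [cln]) hS hC (by
            rintro st ⟨st', h3, h4⟩
            exact ⟨st', h3, st', rfl, h4⟩)
        refine ⟨v, h1, h2, ?_⟩
        rw [if_pos hτ] at hW ⊢
        rw [cw_mid] at hW
        rw [cw_mid']
        exact hW
      · rw [if_neg hτ]; exact trivial
    | go =>
      obtain ⟨v, hS, hC, hW⟩ := hi
      obtain ⟨h1, h2⟩ := step_cln (A := Symbol.nonterminal NT.Z) (out := [Symbol.nonterminal NT.Z])
        trivial (by simp [cln]) hS hC (fun st h => h)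
      refine ⟨v ++ [τ], h1, chk_mono (sub_one v τ) (List.Sublist.refl _) _ _ h2, ?_⟩
      have h3 : cw 1 (p ++ Symbol.nonterminal NT.Z :: s) ≤ F (v ++ [τ]) := by
        by_cases hτ : τ < 2
        · rw [if_pos hτ] at hW
          exact le_trans (cw_12 _) hW
        · rw [if_neg hτ] at hW
          exact hW
      rw [cw_mid] at h3
      rw [cw_mid']
      exact h3
    | _ => exact trivial
  | qF =>
    cases r with
    | fe =>
      obtain ⟨v, hS, hC, hW⟩ := hi
      obtain ⟨h1, h2⟩ := step_cln (A := Symbol.nonterminal NT.X) (out := [Symbol.terminal Ltr.ee])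
        trivial (by simp [cln]) hS hC (fun st h => h)
      refine ⟨v, h1, h2, ?_⟩
      rw [cw_mid] at hW
      rw [cw_mid']
      exact hW
    | fc =>
      obtain ⟨v, hS, hC, hW⟩ := hi
      obtain ⟨h1, h2⟩ := step_cln (A := Symbol.nonterminal NT.c) (out := [])
        trivial (by simp) hS hC (by
          rintro st ⟨st', h3, h4⟩
          have h3' : st' = st := h3
          subst h3'
          exact h4)
      refine ⟨v, h1, h2, ?_⟩
      rw [cw_mid] at hW
      rw [cw_mid']
      have h3 : cw 1 (rul Rl.fc).output = 0 := rfl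
      omega
    | fP =>
      obtain ⟨v, hS, hC, hW⟩ := hi
      obtain ⟨hp, hs⟩ := shape_P hS
      refine ⟨v, ⟨[], s, Or.inl rfl, ?_, hs⟩, chk_rw ?_ p [] hC, ?_⟩
      · rw [hp]; rfl
      · rintro st ⟨st', ⟨h1, h2⟩, h3⟩
        subst h1; subst h2
        exact h3
      · rw [cw_mid] at hW
        rw [cw_mid']
        exact hW
    | fd =>
      obtain ⟨v, hS, hC, hW⟩ := hi
      obtain ⟨h1, h2⟩ := step_cln (A := Symbol.nonterminal NT.X) (out := [Symbol.terminal Ltr.dd])
        trivial (by simp [cln]) hS hC (fun st h => h)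
      refine ⟨v, h1, h2, ?_⟩
      rw [cw_mid] at hW
      rw [cw_mid']
      have h3 : cw 1 (rul Rl.fd).output = 1 := rfl
      omega
    | _ => exact trivial
  | qO =>
    cases r with
    | fc =>
      obtain ⟨v, hS, hC, hW⟩ := hi
      obtain ⟨h1, h2⟩ := step_cln (A := Symbol.nonterminal NT.c) (out := [])
        trivial (by simp) hS hC (by
          rintro st ⟨st', h3, h4⟩
          have h3' : st' = st := h3
          subst h3'
          exact h4)
      refine ⟨v, h1, h2, ?_⟩
      rw [cw_mid] at hW
      rw [cw_mid']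
      have h3 : cw 1 (rul Rl.fc).output = 0 := rfl
      have h4 : wt 1 (Symbol.nonterminal (rul Rl.fc).input) = 1 := rfl
      omega
    | _ => exact trivial
  | qD => 
    cases r <;> exact trivial

theorem inv_der {rs : List Rl} {u w : List Sy} (h : Der rul rs u w) :
    ∀ q : St, Inv q u → Inv (MH.evalFrom q rs) w := by
  induction h with
  | nil u => intro q hq; exact hq
  | cons hr _ ih =>
    intro q hq
    exact ih _ (inv_step hq hr)

theorem chk_run {V V' : List (Fin 4)} (w : List Ltr) :
    ∀ st, chk V V' (w.map Symbol.terminal) st → run w st = some [] := by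
  induction w with
  | nil => intro st h; have h' : st = [] := h; rw [h']; rfl
  | cons x w ih =>
    intro st h
    obtain ⟨st', h1, h2⟩ := h
    have h3 := ih st' h2
    rw [run_cons]
    have h4 : stp x st = some st' := by
      cases x with
      | vl τ => have h1' : st' = st := h1; simp [stp, h1']
      | op a => have h1' : st' = a :: st := h1; simp [stp, h1']
      | cl a => have h1' : st = a :: st' := h1; simp [stp, h1']
      | dd => have h1' : st' = st := h1.2; simp [stp, h1']
      | ee => have h1' : st' = st := h1.2; simp [stp, h1']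
    rw [h4]
    exact h3

theorem chk_leaf {V V' : List (Fin 4)} (u : List Ltr) (a : Ltr) (u' : List Ltr) (ha : Leaf a) :
    ∀ st σ, chk V V' ((u ++ a :: u').map Symbol.terminal) st → run u st = some σ →
      (tys σ).Sublist V' := by
  induction u with
  | nil =>
    intro st σ h hr
    simp only [run, Option.some.injEq] at hr
    subst hr
    obtain ⟨st', h1, h2⟩ := h
    rcases ha with rfl | rfl
    · exact h1.1
    · exact h1.1
  | cons x u ih =>
    intro st σ h hr
    obtain ⟨st', h1, h2⟩ := h
    rw [run_cons] at hr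
    have h4 : stp x st = some st' := by
      cases x with
      | vl τ => have h1' : st' = st := h1; simp [stp, h1']
      | op a => have h1' : st' = a :: st := h1; simp [stp, h1']
      | cl a => have h1' : st = a :: st' := h1; simp [stp, h1']
      | dd => have h1' : st' = st := h1.2; simp [stp, h1']
      | ee => have h1' : st' = st := h1.2; simp [stp, h1']
    rw [h4] at hr
    exact ih st' σ h2 hr

theorem cw_count (w : List Ltr) : cw 1 (w.map Symbol.terminal) = w.count Ltr.dd := by
  induction w with
  | nil => rfl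
  | cons x w ih =>
    rw [List.map_cons, cw_cons, ih, List.count_cons]
    cases x <;> simp [wt]
    omega

theorem vs_shape {v : List (Fin 4)} {w : List Ltr} (h : Shape v (w.map Symbol.terminal)) :
    vs w = v := by
  induction v generalizing w with
  | nil =>
    obtain ⟨pre, body, hp, hu, hb⟩ := h
    rcases hp with rfl | rfl
    · have hu' : (w.map Symbol.terminal : List Sy) = body := hu
      rw [← hu'] at hb
      clear hu hu'
      induction w with
      | nil => rfl
      | cons x w ih =>
        have h1 := hb (Symbol.terminal x) (by simp)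
        have h2 : ∀ y ∈ (w.map Symbol.terminal : List Sy), cln y := by
          intro y hy
          exact hb y (by rw [List.map_cons]; exact List.mem_cons_of_mem _ hy)
        have h3 := ih h2
        cases x with
        | vl τ => exact absurd h1 (by simp [cln])
        | op a => simpa [vs] using h3
        | cl a => simpa [vs] using h3
        | dd => simpa [vs] using h3
        | ee => simpa [vs] using h3
    · exfalso
      have hu' : (w.map Symbol.terminal : List Sy) = Symbol.nonterminal NT.P :: body := hu
      cases w with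
      | nil => simp at hu'
      | cons x w => simp at hu'
  | cons τ v ih =>
    obtain ⟨pre, body, hp, hu, hb⟩ := h
    cases w with
    | nil => simp [vf] at hu
    | cons x w =>
      simp only [vf, List.map_cons, List.cons_append, List.cons.injEq, Symbol.terminal.injEq] at hu
      have h1 : vs w = v := ih ⟨pre, body, hp, hu.2, hb⟩
      rw [hu.1]
      have : vs (Ltr.vl τ :: w) = τ :: vs w := rfl
      rw [this, h1]

theorem SND_thm : SNDStmt := by
  rintro w ⟨rs, hacc, hder⟩
  have h1 : Inv (MH.evalFrom St.qS rs) (w.map Symbol.terminal) := inv_der hder St.qS rfl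
  have h2 : MH.evalFrom St.qS rs = St.qF := hacc
  rw [h2] at h1
  obtain ⟨v, hS, hC, hW⟩ := h1
  have hv := vs_shape hS
  refine ⟨chk_run w [] hC, ?_, ?_⟩
  · intro u a u' hw ha σ hσ
    rw [hv]
    rw [hw] at hC
    exact chk_leaf u a u' ha [] σ hC hσ
  · rw [← cw_count, hv]
    exact hW

end Pool.Agent.H40.ERA
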